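import Pool.Agent.helper55.GL.Spec

set_option autoImplicit false

namespace Pool.Agent.GL

open SimpleGraph

theorem SYM (hBAS : BAS_stmt) (hHST : HST_stmt) (hORI : ORI_stmt) : SYM_stmt := by
  intro V W H K c d α β hK hd hα hβ hαe hβe hαc hβc n
  rw [(hBAS V H c).1]
  intro B hB
  by_contra hlt
  push Not at hlt
  have h1 := hHST n B W K hlt
  rcases hORI n B W K d hK hd h1 with h | h
  · apply hB
    obtain ⟨φ, hφ, hφe⟩ := h
    refine ⟨fun a => φ (α a), ?_, ?_⟩
    · intro a _ b _ hab hφab
      have := hφ (α a) (Set.mem_univ _) (α b) (Set.mem_univ _) (by rw [hαc, hαc]; exact hab) hφab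
      exact hα this
    · intro a _ b _ hab ha hb
      exact hφe (α a) (Set.mem_univ _) (α b) (Set.mem_univ _) (hαe a b hab)
        (by rw [hαc]; exact ha) (by rw [hαc]; exact hb)
  · apply hB
    obtain ⟨φ, hφ, hφe⟩ := h
    refine ⟨fun a => φ (β a), ?_, ?_⟩
    · intro a _ b _ hab hφab
      have := hφ (β a) (Set.mem_univ _) (β b) (Set.mem_univ _)
        (by simp only [hβc, Bool.not_not]; exact hab) hφab
      exact hβ this
    · intro a _ b _ hab ha hb
      exact hφe (β a) (Set.mem_univ _) (β b) (Set.mem_univ _) (hβe a b hab)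
        (by simp only [hβc, Bool.not_not]; exact ha) (by simp only [hβc, Bool.not_not]; exact hb)

end Pool.Agent.GL
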